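import Mathlib

/-!
# A maximal ideal on `ω` that is the union of a strictly increasing `ω₁`-chain of ideals

We prove, in `ZFC`, that there is a strictly increasing sequence `⟨J_α : α < ω₁⟩` of proper ideals
of `𝒫(ℕ)` whose union is a maximal ideal.

The proof: let `e n i` (`n : ℕ`, `i < ω₁`) be an independent family of subsets of `ℕ` indexed by
`ω₁`.  Take a filter `M` on `ℕ` that is maximal subject to each of its members meeting every finite
Boolean combination of the family.  Each `A ⊆ ℕ` is decided modulo `M` on a dense set of finite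
conditions, and countably many coordinates suffice.  For an ultrafilter `U ⊇ M`, the filters
`F_α` generated by `M` and the members of `U` decided by coordinates `< α` form the chain.
-/

open Set Filter Ordinal Cardinal

namespace Pool.Agent.Results.MP_ea2126_lc.OmegaOneChain

section core

variable {I : Type*} (e : ℕ → I → Bool)

/-- `n` agrees with `m` on the coordinates in `D`. -/
def Agree (D : Finset I) (m n : ℕ) : Prop := ∀ i ∈ D, e n i = e m i

/-- Every member of `M` meets every finite condition. -/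
def Pos (M : Filter ℕ) : Prop :=
  ∀ A ∈ M, ∀ (D : Finset I) (m : ℕ), ∃ n ∈ A, Agree e D m n

/-- The condition `(D, m)` decides `A` positively modulo `M`. -/
def Forces (M : Filter ℕ) (D : Finset I) (m : ℕ) (A : Set ℕ) : Prop :=
  {n | Agree e D m n → n ∈ A} ∈ M

/-- Sets decided by coordinates in `c`. -/
def Alg (M : Filter ℕ) (c : Set I) : Set (Set ℕ) :=
  {A | ∀ (D : Finset I) (m : ℕ), (D : Set I) ⊆ c →
    ∃ (D' : Finset I) (m' : ℕ), D ⊆ D' ∧ (D' : Set I) ⊆ c ∧ Agree e D m m' ∧
      (Forces e M D' m' A ∨ Forces e M D' m' Aᶜ)}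

/-- Independence of the family. -/
def Indep : Prop := ∀ (D : Finset I) (x : I → Bool), ∃ n, ∀ i ∈ D, e n i = x i

variable {e}

lemma Agree.trans {D : Finset I} {a b c : ℕ} (h : Agree e D a b) (h' : Agree e D b c) :
    Agree e D a c := fun i hi => (h' i hi).trans (h i hi)

lemma Agree.mono {D D' : Finset I} (hD : D ⊆ D') {a b : ℕ} (h : Agree e D' a b) :
    Agree e D a b := fun i hi => h i (hD hi)

lemma Agree.refl (D : Finset I) (a : ℕ) : Agree e D a a := fun _ _ => rfl

lemma exists_maximal_pos : ∃ M : Filter ℕ, Pos e M ∧ ∀ M', Pos e M' → M' ≤ M → M ≤ M' := by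
  obtain ⟨M, hM, hmax⟩ := zorn_le₀ (α := (Filter ℕ)ᵒᵈ) {F | Pos e (OrderDual.ofDual F)} (by
    intro c hc hchain
    rcases c.eq_empty_or_nonempty with rfl | hne
    · refine ⟨OrderDual.toDual ⊤, ?_, by simp⟩
      intro A hA D m
      have hA' : A ∈ (⊤ : Filter ℕ) := hA
      rw [Filter.mem_top] at hA'
      exact ⟨m, by rw [hA']; trivial, Agree.refl D m⟩
    · have : Nonempty c := hne.to_subtype
      refine ⟨OrderDual.toDual (⨅ i : c, OrderDual.ofDual i.1), ?_, ?_⟩
      · intro A hA D m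
        have hA' : A ∈ (⨅ i : c, OrderDual.ofDual i.1 : Filter ℕ) := hA
        rw [Filter.mem_iInf_of_directed] at hA'
        · obtain ⟨i, hi⟩ := hA'
          exact hc i.2 A hi D m
        · rintro ⟨x, hx⟩ ⟨y, hy⟩
          rcases hchain.total hx hy with h | h
          · exact ⟨⟨y, hy⟩, h, le_refl _⟩
          · exact ⟨⟨x, hx⟩, le_refl _, h⟩
      · intro z hz
        exact iInf_le (fun i : c => OrderDual.ofDual i.1) ⟨z, hz⟩)
  exact ⟨OrderDual.ofDual M, hM, fun M' hM' hle => hmax (y := OrderDual.toDual M') hM' hle⟩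

variable {M : Filter ℕ}

lemma decide_ext [DecidableEq I] (hM : Pos e M) (hmax : ∀ M', Pos e M' → M' ≤ M → M ≤ M')
    (A : Set ℕ) (D : Finset I) (m : ℕ) :
    ∃ (D' : Finset I) (m' : ℕ), D ⊆ D' ∧ Agree e D m m' ∧
      (Forces e M D' m' A ∨ Forces e M D' m' Aᶜ) := by
  by_cases h : ∀ (D' : Finset I) (m' : ℕ), D ⊆ D' → Agree e D m m' → ∀ N ∈ M,
      ∃ n ∈ N ∩ A, Agree e D' m' n
  · refine ⟨D, m, Finset.Subset.refl _, Agree.refl D m, Or.inl ?_⟩
    have hle := hmax (M ⊓ 𝓟 {n | Agree e D m n → n ∈ A}) (by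
      intro N hN E p
      rw [Filter.mem_inf_principal] at hN
      obtain ⟨n, hn, hagree⟩ := hM _ hN (D ∪ E) p
      by_cases hD : Agree e D m n
      · obtain ⟨n', ⟨hn', hnA⟩, hag⟩ := h (D ∪ E) n Finset.subset_union_left hD _ hN
        refine ⟨n', hn' (fun _ => hnA), ?_⟩
        exact (hagree.mono Finset.subset_union_right).trans (hag.mono Finset.subset_union_right)
      · exact ⟨n, hn (fun hh => absurd hh hD), hagree.mono Finset.subset_union_right⟩)
      inf_le_left
    exact hle (mem_inf_of_right (mem_principal_self _))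
  · push Not at h
    obtain ⟨D', m', hD, hag, N, hN, hno⟩ := h
    refine ⟨D', m', hD, hag, Or.inr ?_⟩
    refine Filter.mem_of_superset hN ?_
    intro n hn hagn hnA
    exact hno n ⟨hn, hnA⟩ hagn

lemma glue [DecidableEq I] (he : Indep e) {c : Set I} {E D₁ : Finset I} (h1 : (D₁ : Set I) ⊆ c)
    {p m₁ : ℕ} (h : ∀ i ∈ E, i ∈ c → e m₁ i = e p i) :
    ∃ m', Agree e E p m' ∧ Agree e D₁ m₁ m' := by
  obtain ⟨m', hm'⟩ := he (E ∪ D₁) (fun i => if i ∈ D₁ then e m₁ i else e p i)
  refine ⟨m', ?_, ?_⟩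
  · intro i hi
    rw [hm' i (Finset.mem_union_left _ hi)]
    by_cases hD : i ∈ D₁
    · simp only [hD, if_true]
      exact h i hi (h1 hD)
    · simp only [hD, if_false]
  · intro i hi
    rw [hm' i (Finset.mem_union_right _ hi)]
    simp only [hi, if_true]

lemma Forces.mono {D D' : Finset I} {m m' : ℕ} {A : Set ℕ} (h : Forces e M D m A)
    (hD : D ⊆ D') (hag : Agree e D m m') : Forces e M D' m' A := by
  refine Filter.mem_of_superset h ?_
  intro n hn hn'
  exact hn (hag.trans (hn'.mono hD))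

lemma alg_mono [DecidableEq I] (he : Indep e) {c c' : Set I} (hcc : c ⊆ c') :
    Alg e M c ⊆ Alg e M c' := by
  classical
  intro A hA D m hD
  obtain ⟨D₁, m₁, hD₁, hc₁, hag, hdec⟩ := hA (D.filter (· ∈ c)) m (by
    intro i hi
    simp only [Finset.coe_filter, Set.mem_ofPred_eq] at hi
    exact hi.2)
  obtain ⟨m', hm', hm''⟩ := glue he (E := D) (p := m) hc₁ (m₁ := m₁) (by
    intro i hi hic
    exact hag i (Finset.mem_filter.2 ⟨hi, hic⟩))
  refine ⟨D ∪ D₁, m', Finset.subset_union_left, ?_, hm', ?_⟩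
  · rw [Finset.coe_union]
    exact union_subset hD (hc₁.trans hcc)
  · rcases hdec with h | h
    · exact Or.inl (h.mono Finset.subset_union_right hm'')
    · exact Or.inr (h.mono Finset.subset_union_right hm'')

lemma alg_inter {c : Set I} {A B : Set ℕ} (hA : A ∈ Alg e M c) (hB : B ∈ Alg e M c) :
    A ∩ B ∈ Alg e M c := by
  intro D m hD
  obtain ⟨D₁, m₁, hD₁, hc₁, hag₁, hdec₁⟩ := hA D m hD
  obtain ⟨D₂, m₂, hD₂, hc₂, hag₂, hdec₂⟩ := hB D₁ m₁ hc₁
  refine ⟨D₂, m₂, hD₁.trans hD₂, hc₂, hag₁.trans (hag₂.mono hD₁), ?_⟩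
  rcases hdec₂ with h2 | h2
  · rcases hdec₁ with h1 | h1
    · left
      have h1' := h1.mono hD₂ hag₂
      filter_upwards [h1', h2] with n hn1 hn2 hn
      exact ⟨hn1 hn, hn2 hn⟩
    · right
      have h1' := h1.mono hD₂ hag₂
      filter_upwards [h1'] with n hn1 hn hnAB
      exact hn1 hn hnAB.1
  · right
    filter_upwards [h2] with n hn2 hn hnAB
    exact hn2 hn hnAB.2

/-- Each set is decided by countably many coordinates. -/
lemma exists_countable_alg [DecidableEq I] (hM : Pos e M)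
    (hmax : ∀ M', Pos e M' → M' ≤ M → M ≤ M') (A : Set ℕ) :
    ∃ c : Set I, c.Countable ∧ A ∈ Alg e M c := by
  classical
  -- for each `k`, choose a deciding condition through `k` if there is one
  have hch : ∀ k : ℕ, ∃ Dk : Finset I,
      (∃ D' : Finset I, Forces e M D' k A ∨ Forces e M D' k Aᶜ) →
        (Forces e M Dk k A ∨ Forces e M Dk k Aᶜ) := by
    intro k
    by_cases h : ∃ D' : Finset I, Forces e M D' k A ∨ Forces e M D' k Aᶜ
    · obtain ⟨D', hD'⟩ := h
      exact ⟨D', fun _ => hD'⟩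
    · exact ⟨∅, fun h' => absurd h' h⟩
  choose Dk hDk using hch
  refine ⟨⋃ k, (Dk k : Set I), countable_iUnion fun k => (Dk k).countable_toSet, ?_⟩
  intro D m hD
  obtain ⟨D', m', hDD', hag, hdec⟩ := decide_ext hM hmax A D m
  have h1 := hDk m' ⟨D', hdec⟩
  refine ⟨D ∪ Dk m', m', Finset.subset_union_left, ?_, hag, ?_⟩
  · rw [Finset.coe_union]
    exact union_subset hD (subset_iUnion (fun k => (Dk k : Set I)) m')
  · rcases h1 with h | h
    · exact Or.inl (h.mono Finset.subset_union_right (Agree.refl _ _))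
    · exact Or.inr (h.mono Finset.subset_union_right (Agree.refl _ _))

/-- If no condition with support in `c` forces `B`, then `Bᶜ ∈ M`. -/
lemma compl_mem_of_no_force [DecidableEq I] (he : Indep e) (hM : Pos e M)
    (hmax : ∀ M', Pos e M' → M' ≤ M → M ≤ M') {c : Set I} {B : Set ℕ} (hB : B ∈ Alg e M c)
    (hno : ∀ (D : Finset I) (m : ℕ), (D : Set I) ⊆ c → ¬ Forces e M D m B) : Bᶜ ∈ M := by
  classical
  have hle := hmax (M ⊓ 𝓟 Bᶜ) (by
    intro N hN E p
    rw [Filter.mem_inf_principal] at hN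
    obtain ⟨D₁, m₁, hD₁, hc₁, hag, hdec⟩ := hB (E.filter (· ∈ c)) p (by
      intro i hi
      simp only [Finset.coe_filter, Set.mem_ofPred_eq] at hi
      exact hi.2)
    have hneg : Forces e M D₁ m₁ Bᶜ := by
      rcases hdec with h | h
      · exact absurd h (hno D₁ m₁ hc₁)
      · exact h
    obtain ⟨m', hm', hm''⟩ := glue he (E := E) (p := p) hc₁ (m₁ := m₁) (by
      intro i hi hic
      exact hag i (Finset.mem_filter.2 ⟨hi, hic⟩))
    obtain ⟨n, hn, hagn⟩ := hM _ (Filter.inter_mem hN hneg) (E ∪ D₁) m'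
    have hnB : n ∈ Bᶜ := hn.2 (hm''.trans (hagn.mono Finset.subset_union_right))
    exact ⟨n, hn.1 hnB, hm'.trans (hagn.mono Finset.subset_union_left)⟩) inf_le_left
  exact hle (mem_inf_of_right (mem_principal_self _))

/-- The filter generated by `M` and the members of `U` decided by coordinates in `c`. -/
def fil (U : Filter ℕ) (M : Filter ℕ) (e : ℕ → I → Bool) (c : Set I) : Set (Set ℕ) :=
  {A | ∃ B ∈ U, B ∈ Alg e M c ∧ ∃ N ∈ M, B ∩ N ⊆ A}

/-- The coordinate set of `a`, on the side `b`. -/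
def side (e : ℕ → I → Bool) (a : I) (b : Bool) : Set ℕ := {n | e n a = b}

lemma side_not_mem_fil [DecidableEq I] (he : Indep e) (hM : Pos e M)
    (hmax : ∀ M', Pos e M' → M' ≤ M → M ≤ M') {U : Filter ℕ} [U.NeBot] (hU : U ≤ M)
    {c : Set I} {a : I} (ha : a ∉ c) (b : Bool) : side e a b ∉ fil U M e c := by
  rintro ⟨B, hBU, hB, N, hN, hsub⟩
  have hex : ∃ (D : Finset I) (m : ℕ), (D : Set I) ⊆ c ∧ Forces e M D m B := by
    by_contra hcon
    push Not at hcon
    have h1 : Bᶜ ∈ M := compl_mem_of_no_force he hM hmax hB hcon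
    have h2 : Bᶜ ∩ B ∈ U := Filter.inter_mem (hU h1) hBU
    rw [compl_inter_self] at h2
    exact Filter.empty_notMem U h2
  obtain ⟨D, m, hD, hf⟩ := hex
  obtain ⟨m₂, hm₂⟩ := he (insert a D) (fun i => if i = a then !b else e m i)
  obtain ⟨n, hn, hag⟩ := hM _ (Filter.inter_mem hN hf) (insert a D) m₂
  have hag1 : Agree e D m n := by
    intro i hi
    have hia : i ≠ a := by
      rintro rfl
      exact ha (hD hi)
    rw [hag i (Finset.mem_insert_of_mem hi), hm₂ i (Finset.mem_insert_of_mem hi)]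
    simp [hia]
  have hnB : n ∈ B := hn.2 hag1
  have hns : e n a = b := hsub ⟨hnB, hn.1⟩
  rw [hag a (Finset.mem_insert_self _ _), hm₂ a (Finset.mem_insert_self _ _)] at hns
  simp at hns

lemma side_mem_alg [DecidableEq I] {c : Set I} {a : I} (ha : a ∈ c) (b : Bool) :
    side e a b ∈ Alg e M c := by
  intro D m hD
  refine ⟨insert a D, m, Finset.subset_insert _ _, ?_, Agree.refl _ _, ?_⟩
  · rw [Finset.coe_insert]
    exact insert_subset ha hD
  · by_cases hb : e m a = b
    · left
      refine Filter.mem_of_superset Filter.univ_mem ?_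
      intro n _ hn
      exact (hn a (Finset.mem_insert_self _ _)).trans hb
    · right
      refine Filter.mem_of_superset Filter.univ_mem ?_
      intro n _ hn hs
      exact hb ((hn a (Finset.mem_insert_self _ _)).symm.trans hs)

lemma fil_mono [DecidableEq I] (he : Indep e) {U : Filter ℕ} {c c' : Set I} (hcc : c ⊆ c') :
    fil U M e c ⊆ fil U M e c' := by
  rintro A ⟨B, hBU, hB, N, hN, hsub⟩
  exact ⟨B, hBU, alg_mono he hcc hB, N, hN, hsub⟩

lemma fil_sub {U : Filter ℕ} (hU : U ≤ M) {c : Set I} {A : Set ℕ} (hA : A ∈ fil U M e c) :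
    A ∈ U := by
  obtain ⟨B, hBU, hB, N, hN, hsub⟩ := hA
  exact Filter.mem_of_superset (Filter.inter_mem hBU (hU hN)) hsub

lemma fil_superset {U : Filter ℕ} {c : Set I} {A A' : Set ℕ} (hA : A ∈ fil U M e c)
    (h : A ⊆ A') : A' ∈ fil U M e c := by
  obtain ⟨B, hBU, hB, N, hN, hsub⟩ := hA
  exact ⟨B, hBU, hB, N, hN, hsub.trans h⟩

lemma fil_inter {U : Filter ℕ} {c : Set I} {A A' : Set ℕ} (hA : A ∈ fil U M e c)
    (hA' : A' ∈ fil U M e c) : A ∩ A' ∈ fil U M e c := by
  obtain ⟨B, hBU, hB, N, hN, hsub⟩ := hA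
  obtain ⟨B', hBU', hB', N', hN', hsub'⟩ := hA'
  refine ⟨B ∩ B', Filter.inter_mem hBU hBU', alg_inter hB hB', N ∩ N', Filter.inter_mem hN hN', ?_⟩
  rintro n ⟨⟨h1, h2⟩, h3, h4⟩
  exact ⟨hsub ⟨h1, h3⟩, hsub' ⟨h2, h4⟩⟩

lemma fil_univ {U : Filter ℕ} {c : Set I} : Set.univ ∈ fil U M e c := by
  refine ⟨Set.univ, Filter.univ_mem, ?_, Set.univ, Filter.univ_mem, fun _ _ => trivial⟩
  intro D m hD
  refine ⟨D, m, Finset.Subset.refl _, hD, Agree.refl _ _, Or.inl ?_⟩
  exact Filter.mem_of_superset Filter.univ_mem (fun _ _ _ => trivial)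

end core

/-- An independent family of subsets of `ℕ` indexed by any type injecting into `ℕ → Bool`. -/
lemma exists_indep {I : Type*} (r : I → (ℕ → Bool)) (hr : Function.Injective r) :
    ∃ e : ℕ → I → Bool, Indep e := by
  classical
  let Q := Σ k : ℕ, ((Fin k → Bool) → Bool)
  have : Nonempty Q := ⟨⟨0, fun _ => true⟩⟩
  obtain ⟨s, hs⟩ := exists_surjective_nat Q
  refine ⟨fun n i => (s n).2 (fun j => r i j), ?_⟩
  intro D x
  -- a level separating the members of `D`
  have hsep : ∃ k : ℕ, ∀ i ∈ D, ∀ j ∈ D, (∀ l < k, r i l = r j l) → i = j := by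
    have h1 : ∀ p : I × I, ∃ k : ℕ, (∀ l < k, r p.1 l = r p.2 l) → p.1 = p.2 := by
      rintro ⟨i, j⟩
      by_cases hij : i = j
      · exact ⟨0, fun _ => hij⟩
      · have : r i ≠ r j := fun h => hij (hr h)
        obtain ⟨l, hl⟩ := Function.ne_iff.1 this
        exact ⟨l + 1, fun h => absurd (h l (Nat.lt_succ_self l)) hl⟩
    choose f hf using h1
    refine ⟨(D ×ˢ D).sup f, ?_⟩
    intro i hi j hj h
    refine hf (i, j) (fun l hl => h l (lt_of_lt_of_le hl ?_))
    exact Finset.le_sup (f := f) (Finset.mk_mem_product hi hj)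
  obtain ⟨k, hk⟩ := hsep
  obtain ⟨n, hn⟩ := hs ⟨k, fun t => decide (∃ i ∈ D, (∀ j : Fin k, r i j = t j) ∧ x i = true)⟩
  refine ⟨n, ?_⟩
  intro i hi
  show (s n).2 (fun j => r i j) = x i
  rw [hn]
  show decide (∃ i' ∈ D, (∀ j : Fin k, r i' j = r i j) ∧ x i' = true) = x i
  by_cases hx : x i = true
  · rw [hx]
    exact decide_eq_true ⟨i, hi, fun _ => rfl, hx⟩
  · rw [Bool.eq_false_iff.2 hx]
    apply decide_eq_false
    rintro ⟨i', hi', hagree, hx'⟩
    have : i' = i := hk i' hi' i hi (fun l hl => hagree ⟨l, hl⟩)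
    rw [this] at hx'
    exact hx hx'

/-- There is a strictly increasing `ω₁`-sequence of proper ideals of `𝒫(ℕ)` whose union is a maximal
ideal. -/
theorem result :
    ∃ J : Set.Iio (ω_ 1 : Ordinal.{0}) → Order.Ideal (Set ℕ),
      StrictMono J ∧ (∀ a, (J a).IsProper) ∧
      ∃ K : Order.Ideal (Set ℕ), K.IsMaximal ∧
        (K : Set (Set ℕ)) = ⋃ a, (J a : Set (Set ℕ)) := by
  classical
  -- an injection of `ω₁` into the reals
  have hinj : ∃ r : Set.Iio (ω_ 1 : Ordinal.{0}) → (ℕ → Bool), Function.Injective r := by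
    have h : Cardinal.lift.{0} #(Set.Iio (ω_ 1 : Ordinal.{0})) ≤
        Cardinal.lift.{1} #(ℕ → Bool) := by
      rw [Cardinal.mk_Iio_ordinal, Ordinal.card_omega]
      have h1 : #(ℕ → Bool) = 𝔠 := by simp
      rw [h1, Cardinal.lift_lift, Cardinal.lift_continuum]
      rw [Cardinal.lift_le_continuum]
      exact Cardinal.aleph_one_le_continuum
    obtain ⟨f⟩ := Cardinal.lift_mk_le'.1 h
    exact ⟨f, f.injective⟩
  obtain ⟨r, hr⟩ := hinj
  obtain ⟨e, he⟩ := exists_indep r hr
  obtain ⟨M, hM, hmax⟩ := exists_maximal_pos (e := e)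
  have hMne : M.NeBot := by
    refine ⟨fun h => ?_⟩
    obtain ⟨n, hn, _⟩ := hM ∅ (by rw [h]; exact Filter.mem_bot) ∅ 0
    exact hn
  let U : Ultrafilter ℕ := Ultrafilter.of M
  have hU : (U : Filter ℕ) ≤ M := Ultrafilter.of_le M
  -- the ideals
  let c : Set.Iio (ω_ 1 : Ordinal.{0}) → Set (Set.Iio (ω_ 1 : Ordinal.{0})) := fun a => Set.Iio a
  let S : Set.Iio (ω_ 1 : Ordinal.{0}) → Set (Set ℕ) := fun a => {A | Aᶜ ∈ fil (U : Filter ℕ) M e (c a)}
  have hS : ∀ a, Order.IsIdeal (S a) := by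
    intro a
    constructor
    · intro A B hBA hA
      exact fil_superset hA (compl_subset_compl.2 hBA)
    · refine ⟨∅, ?_⟩
      show (∅ : Set ℕ)ᶜ ∈ fil (U : Filter ℕ) M e (c a)
      rw [compl_empty]
      exact fil_univ
    · intro A hA B hB
      refine ⟨A ∪ B, ?_, subset_union_left, subset_union_right⟩
      show (A ∪ B)ᶜ ∈ fil (U : Filter ℕ) M e (c a)
      rw [compl_union]
      exact fil_inter hA hB
  have hK : Order.IsIdeal {A : Set ℕ | Aᶜ ∈ (U : Filter ℕ)} := by
    constructor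
    · intro A B hBA hA
      exact Filter.mem_of_superset hA (compl_subset_compl.2 hBA)
    · refine ⟨∅, ?_⟩
      show (∅ : Set ℕ)ᶜ ∈ (U : Filter ℕ)
      rw [compl_empty]
      exact Filter.univ_mem
    · intro A hA B hB
      refine ⟨A ∪ B, ?_, subset_union_left, subset_union_right⟩
      show (A ∪ B)ᶜ ∈ (U : Filter ℕ)
      rw [compl_union]
      exact Filter.inter_mem hA hB
  refine ⟨fun a => (hS a).toIdeal, ?_, ?_, hK.toIdeal, ?_, ?_⟩
  · -- strictly increasing
    intro a b hab
    have hsub : S a ⊆ S b := fun A hA => fil_mono he (Iio_subset_Iio hab.le) hA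
    refine lt_of_le_of_ne hsub ?_
    intro heq
    have heq' : S a = S b := congrArg (fun K : Order.Ideal (Set ℕ) => (K : Set (Set ℕ))) heq
    -- the side of coordinate `a` lying in `U`
    have hside : ∃ t : Bool, side e a t ∈ (U : Filter ℕ) := by
      have := U.mem_or_compl_mem (side e a true)
      rcases this with h | h
      · exact ⟨true, h⟩
      · refine ⟨false, ?_⟩
        refine Filter.mem_of_superset h ?_
        intro n hn
        exact Bool.eq_false_iff.2 hn
    obtain ⟨t, ht⟩ := hside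
    have hb : (side e a t)ᶜ ∈ S b := by
      show (side e a t)ᶜᶜ ∈ fil (U : Filter ℕ) M e (c b)
      rw [compl_compl]
      exact ⟨side e a t, ht, side_mem_alg (show a ∈ c b from hab) t, Set.univ, Filter.univ_mem,
        inter_subset_left⟩
    rw [← heq'] at hb
    have hb' : (side e a t)ᶜᶜ ∈ fil (U : Filter ℕ) M e (c a) := hb
    rw [compl_compl] at hb'
    exact side_not_mem_fil he hM hmax hU (show a ∉ c a from lt_irrefl a) t hb'
  · intro a
    refine Order.Ideal.isProper_of_notMem (p := Set.univ) ?_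
    intro h
    have h' : (Set.univ : Set ℕ)ᶜ ∈ fil (U : Filter ℕ) M e (c a) := h
    rw [compl_univ] at h'
    exact Filter.empty_notMem (U : Filter ℕ) (fil_sub hU h')
  · -- maximality
    have hproper : (hK.toIdeal).IsProper := by
      refine Order.Ideal.isProper_of_notMem (p := Set.univ) ?_
      intro h
      have h' : (Set.univ : Set ℕ)ᶜ ∈ (U : Filter ℕ) := h
      rw [compl_univ] at h'
      exact Filter.empty_notMem (U : Filter ℕ) h'
    refine { hproper with maximal_proper := ?_ }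
    intro L hL
    obtain ⟨A, hAL, hAK⟩ := SetLike.exists_of_lt hL
    have hA : A ∈ (U : Filter ℕ) := by
      rcases U.mem_or_compl_mem A with h | h
      · exact h
      · exact absurd h hAK
    have hAc : Aᶜ ∈ L := by
      apply hL.le
      show Aᶜᶜ ∈ (U : Filter ℕ)
      rw [compl_compl]
      exact hA
    have htop : (Set.univ : Set ℕ) ∈ L := by
      have := Order.Ideal.sup_mem hAL hAc
      rwa [sup_compl_eq_top] at this
    ext B
    simp only [mem_univ, iff_true]
    exact L.lower (subset_univ B) htop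
  · -- the union
    ext A
    simp only [mem_iUnion]
    constructor
    · intro hA
      have hA' : Aᶜ ∈ (U : Filter ℕ) := hA
      obtain ⟨d, hd, hdA⟩ := exists_countable_alg hM hmax Aᶜ
      -- `d` is bounded
      have : Countable d := hd.to_subtype
      have hbd : ∃ a : Set.Iio (ω_ 1 : Ordinal.{0}), d ⊆ Set.Iio a := by
        obtain ⟨g, hg⟩ : ∃ g : ℕ → Ordinal.{0}, (∀ n, g n < ω_ 1) ∧ ∀ x ∈ d, ∃ n, g n = x.1 := by
          rcases d.eq_empty_or_nonempty with h0 | h0
          · exact ⟨fun _ => 0, fun _ => Ordinal.omega_pos 1, by simp [h0]⟩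
          · obtain ⟨g, hg⟩ := hd.exists_eq_range h0
            refine ⟨fun n => (g n).1, fun n => (g n).2, ?_⟩
            intro x hx
            rw [hg] at hx
            obtain ⟨n, hn⟩ := hx
            exact ⟨n, congrArg Subtype.val hn⟩
        have hlt : (⨆ n, (g n + 1)) < ω_ 1 := by
          apply Ordinal.iSup_lt_omega_one
          intro n
          exact (Cardinal.isSuccLimit_omega 1).add_one_lt (hg.1 n)
        refine ⟨⟨_, hlt⟩, ?_⟩
        intro x hx
        obtain ⟨n, hn⟩ := hg.2 x hx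
        show x < _
        rw [← Subtype.coe_lt_coe]
        show x.1 < ⨆ n, (g n + 1)
        rw [← hn]
        exact lt_of_lt_of_le (lt_add_one _) (Ordinal.le_iSup (fun n => g n + 1) n)
      obtain ⟨a, ha⟩ := hbd
      exact ⟨a, Aᶜ, hA', alg_mono he ha hdA, Set.univ, Filter.univ_mem, inter_subset_left⟩
    · rintro ⟨a, ha⟩
      exact fil_sub hU ha

end Pool.Agent.Results.MP_ea2126_lc.OmegaOneChain
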